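import Mathlib
import Pool.Agent.V1168.EF.Indep
import Pool.Agent.V1168.EF.Rel

/-!
# The independence of the Chow–Künneth filtration from the decomposition for the products of all
varieties in positive characteristic with abelian varieties: the exceptional factors have small
dimension

Let `K i` (`i` in a set `I`, which may be **infinite**) be CM fields with pair flips (`PairFlips`): for
any two complex embeddings `φ` of `K i` and `ψ` of `K k` (with `i = k` or not) which are neither equal
nor complex conjugate, some automorphism of `ℂ` is the identity on `φ (K i)` and the complex conjugation
on `ψ (K k)`. One CM field `K` of degree `2 g` has this property if the Galois group of its normal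
closure is the largest possible one (of order `2 ^ g g!`), or contains, for each pair of complex
conjugate embeddings, an element which exchanges them and fixes all other embeddings, or contains all
the automorphisms that exchange two pairs in this sense (`g > 2`); several such fields with linearly
disjoint normal closures have it together (for example there are infinite families of imaginary
quadratic fields). We fix an isomorphism `ν` of the algebraic closure of `ℚ_p` with `ℂ`; it defines a
`p`-adic valuation `v` of `ℂ` with `v p = 1`. Let `π i` be a Weil number for `q = p ^ a` in `K i` whose
slope vector, the function `2 v (φ π) - a` on the complex embeddings `φ` (`slopeVector`), is not zero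
(there are no other conditions on the slopes).

For finite subsets `J` of `I` let `f i`, `i` in `J`, be monic polynomials whose complex roots are
conjugates of `π i` (`IsPolyOf`), for instance the characteristic polynomials of Frobenius of the abelian
varieties in the isogeny classes of the `π i` over the field with `q` elements. Let `A` be an abelian
variety over the field with `Q = q ^ s` elements which is isogenous to a product of powers of abelian
varieties coming from the field with `q` elements, with characteristic polynomials `f i`, `i` in `J`
(`IsAbelian`).

Let `k` be a field which contains the field with `Q` elements, and let `Y` be **any** smooth projective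
variety over `k` such that the absolute Frobenius endomorphism of `Y` satisfies nonzero rational
polynomials on the Chow groups `CH^j(A × Y)` (this is so if a model of `Y` over a finite field has a
finite-dimensional motive in the sense of Kimura, for instance if it is dominated by a product of
curves).

Let `Ω` be a finite set of complex numbers, stable under the automorphisms of `ℂ`, whose elements are
nonzero and lie in CM fields or in totally real fields (`IsStable`). A number `ρ` is generated by `Ω`
(`Generated p Ω`) if it is not zero and a power of it is a product of powers of elements of `Ω` and of a
power of `p`.

We suppose that the roots of these polynomials are generated by `Ω` (`DiagGenerated`); there is no other condition on them.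
They are the Frobenius eigenvalues of a model of `Y`, and so there is always such a finite set.

**The theorem: there is a finite subset `S` of `I` with `∑ [K i : ℚ] ≤ |Ω|`, the sum over `i` in `S`,
such that for all finite sets `J` disjoint from `S`, all `f i`, `s`, `A` and all `Y` as above the
statement below is true.** The set `S` depends only on `Ω` and the `π i`, and not on the powers of
the abelian varieties, on the finite field or on `Y`. So if `B i` are the simple abelian varieties of
the `π i` (of dimension `[K i : ℚ] / 2`, for instance if they are ordinary), then **the exceptional ones
for `Y` have together at most the dimension `|Ω| / 2`, whatever the abelian varieties are**: all others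
can be multiplied to `Y`. The bound is sharp: for `B 1 × ⋯ × B r` (and its powers) `Ω` has `2 ∑ dim B i`
elements, and all the `B i` are exceptional: there are divisor classes in
`H^1(B i) ⊗ H^1(B 1 × ⋯ × B r)`.

The results of the starting files of this kind are about varieties whose Frobenius eigenvalues are
unrelated to the fields `K i` or have small slopes. **Here they are arbitrary**: they may generate the
same fields `K i`, or fields containing them.

Let `π_A^0, …, π_A^(2 dim A)` be the Chow–Künneth decomposition of `A` of Deninger and Murre. For a
Chow–Künneth decomposition `π_Y` of `Y` put `π^m = ∑ π_A^a × π_Y^b`, the sum over `a + b = m`. There are
products `D t` of `c t` divisor classes on `A`, finitely many (independent of `Y`), such that every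
element of `CH^n(A × Y)` (with rational coefficients) is in a unique way the sum of the products of
the `D t` with elements of `CH^(n - c t)(Y)`, and for **all** Chow–Künneth decompositions `π_Y` and
`π_Y'` of `Y`

1. the `π^m` are a Chow–Künneth decomposition of `A × Y`;
2. `F^ν CH^n(A × Y) = ⨁ D t × F^ν CH^(n - c t)(Y)` for all `n` and `ν`;
3. **the filtrations of the Chow groups of `A × Y` for `π_A × π_Y` and `π_A × π_Y'` agree in the
   codimension `n` and the degree `ν` if and only if the filtrations of the Chow groups of `Y` for
   `π_Y` and `π_Y'` agree in the degree `ν` and the codimensions `n - k`, `0 ≤ k ≤ dim A`.**

So for the product decompositions the independence for `A × Y` (Murre's conjecture (C)) is equivalent to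
the independence for `Y`; in particular, if `Y` is a surface (or any variety) for which the filtration
does not depend on the decomposition, then all product decompositions of `A × Y` give the same
filtration; and two decompositions of `Y` with different filtrations would give a counterexample
`A × Y`. Decompositions of `A × Y` which are not products are not considered.

The framework: the Chow ring and the ring of correspondences of `A`, with rational coefficients, and
the cohomology of `A` with complex coefficients (we choose an isomorphism of the algebraic closure of
`ℚ_ℓ` with `ℂ`), with the formal properties and the theorems of Tate on divisors and of Kimura on the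
nilpotence of homologically trivial correspondences (`AbelianData`, `IsAbelian`); the Chow groups
`T^(2 j)(Y, j) = CH^j(Y)` and `T^(2 j)(A × Y, j) = CH^j(A × Y)`, with the products with classes on `A`,
the push-forward from `A × Y` to `Y`, the operation of the correspondences from `A` to `A` and the
absolute Frobenius endomorphism of `Y` (`RelData`, `IsRel`); the absolute Frobenius endomorphism of
`A × Y` acts on cycles of codimension `j` as multiplication by `Q ^ j` (`PureCycles`); the rings of
correspondences of `Y` and `A × Y`, the cohomology `H` of `Y` (the one of `A × Y` is its tensor product
with the one of `A`), the cycle class maps and the exterior product of correspondences (`CorrData`,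
`IsCorrData`). About the projectors of `A` we use that they are a Chow–Künneth decomposition and that
`π_A^(2 c)` fixes the products of `c` divisor classes (`IsDeningerMurre`).

The proof. Let `x i` be the slope vectors of the `π i`. If a product of a number `ρ` generated by `Ω`
and of roots of the `f i`, no two of them complex conjugate, is a power of `q` up to a root of unity,
then, computing valuations, there are odd functions `n i` on the embeddings of the `K i`, not all zero,
such that the function `σ ↦ ∑ n i φ * x i (σ φ)` of the automorphisms `σ` of `ℂ` (the sum over all `i` and
all embeddings `φ`) is in the space `F` spanned by the functions `σ ↦ v (σ β) - v (conj (σ β))`, `β` in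
`Ω`. This space is stable under translations. So we can average over the automorphisms which fix a
given embedding `φ₀` of `K i`: by the pair flips the average of an odd function is zero except at `φ₀`
and its conjugate, so that the function `σ ↦ x i (σ φ₀)` is in `F` if `n i φ₀` is not zero, and then the
same is true for all embeddings of this field `K i` (`EF.orb_mem`). Let `S` be the set of all `i` such
that these functions are in `F`. Again by the pair flips, the functions `σ ↦ x i (σ φ)`, for all `i` and
one `φ` out of each complex conjugate pair, are linearly independent. As the dimension of `F` is at most
`|Ω| / 2` (conjugate `β` give opposite functions), `∑ [K i : ℚ] / 2`, the sum over `S`, is at most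
`|Ω| / 2` (`EF.exists_exceptional`), and outside of `S` there are no such relations
(`EF.exactPair_of`).
If a Weil number `α` of the cohomology of `A` and a number `ρ` generated by `Ω` have the product `Q ^ j`, then
`α = Q ^ k` and `α` is a product of pairs of complex conjugate numbers, so that the eigenvectors of the
Frobenius endomorphism of `A` for `α` are products of divisor classes. There are products `D t` of
`c t` divisor classes on `A` with a dual system `E t` for the intersection pairing; let `p` be the
projector given by them. For a suitable polynomial `P` the correspondence `(1 - p) P (F)` is
homologically trivial, hence nilpotent, and `P (F)` is invertible on `CH^j(A × Y)`. So `p` acts as the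
identity: `x = ∑ D t × (E t)_* x` for all `x` in `CH^j(A × Y)`. As `π_A^a` maps `D t` to itself
(`a = 2 c t`) or to zero, `π^m (D t × y) = D t × π_Y^(m - 2 c t) y`, whence (2) and (3)
(`EF.independenceTimes`).
-/

set_option autoImplicit false

namespace Pool.Agent.Results.MP_10f4af_ag.EveryVarietyTimes

open NumberField Pool.Agent.V1168.EF
open Pool.Agent.V1168.EV (PairFlips slopeVector)

/-- **For every variety `Y` over a field of characteristic `p`, whose Frobenius satisfies polynomials on the
Chow groups, with Frobenius eigenvalues generated by the stable finite set `Ω` and all abelian
varieties `A` given by Weil numbers in a family of CM fields with pair flips, without factors in an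
exceptional set `S` with `∑ [K i : ℚ] ≤ |Ω|`: the
filtrations of `CH^n(A × Y)` given by the products of the decomposition of `A` with two decompositions
of `Y` agree if and only if the filtrations of the `CH^(n - k)(Y)`, `0 ≤ k ≤ dim A`, agree.** -/
theorem result {p : ℕ} [Fact p.Prime] (ν : PadicAlgCl p ≃+* ℂ) {I : Type}
    (K : I → Type) [∀ i, Field (K i)] [∀ i, NumberField (K i)] [∀ i, IsCMField (K i)]
    (hK : PairFlips K) (a : ℕ) (ha : 0 < a) (π : ∀ i, K i)
    (hπ : ∀ i, π i * IsCMField.complexConj (K i) (π i) = (p : K i) ^ a)
    (hs : ∀ i, ∃ φ, slopeVector ν a (π i) φ ≠ 0) (Ω : Finset ℂ) (hΩ : IsStable Ω) :
    ∃ S : Finset I, ∑ i ∈ S, Module.finrank ℚ (K i) ≤ Ω.card ∧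
      ForAllPolys π (p ^ a) S (fun _ q f => IndependenceTimes p Ω q f) := by
  obtain ⟨S, hS, h⟩ := exists_factors ν hK ha hπ hs hΩ
  exact ⟨S, hS, h _ fun J q f hq hR => independenceTimes hq hR⟩

end Pool.Agent.Results.MP_10f4af_ag.EveryVarietyTimes
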