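import Pool.Agent.V1157.MJ.Mid

/-!
# Independence of the Chow-Kunneth filtration and homologically trivial correspondences
-/

open CategoryTheory AlgebraicGeometry

universe u v w

namespace Pool.Agent.Results.MP_10f4af_ag.WeightsNotRaised

open Pool.Agent.H914 Pool.Agent.H914.VarClass Pool.Agent.H914.VarClass.Obj Pool.Agent.W492.BB
  Pool.Agent.TH133 Pool.Agent.V1157.MJ

/-- For a variety `X` with a Chow-Kunneth decomposition `π`: if the filtration of the Chow groups of
`X` does not depend on the decomposition, then homologically trivial self-correspondences of degree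
zero do not raise the weights in the Chow groups of `X`; and the converse holds if the homologically
trivial self-correspondences of `X` form a nilpotent ideal. -/
theorem result {k : Type u} [Field k] (𝒱 : VarClass k) (C : TheoryData.{u, v, 0} 𝒱 ℚ)
    [IsChowProj C] (K : Type w) [Field K] (H : WeilTheoryData.{u, v, w} C K) [IsWeilProj H]
    (X : 𝒱.Obj) (π : ℕ → C.A (X.prod X)) (hπ : IsCK H X π) :
    (MurreC H X → HomDoesNotRaise H X π) ∧
      ∀ N : ℕ, NilpotentOfIndex H X N → (MurreC H X ↔ HomDoesNotRaise H X π) :=
  ⟨fun h => homDoesNotRaise_of_C X h hπ, fun _ hN =>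
    ⟨fun h => homDoesNotRaise_of_C X h hπ, fun h => murreC_of_homDoesNotRaise X hN hπ h⟩⟩

end Pool.Agent.Results.MP_10f4af_ag.WeightsNotRaised
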